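import Pool.Agent.T9h20.TF.Spec

/-! # Growth of the sizes -/

set_option autoImplicit false

namespace Pool.Agent.T9h91.TF

open Pool.Agent.T9h20.TA (mon mx sel isSel_sel)
open Pool.Agent.T9h20.TF

theorem mx_nonneg {t : ℕ} [NeZero t] (c a : Fin t → ℝ) (y : ℝ) : 0 ≤ mx c a y := abs_nonneg _

theorem mx_grow {t : ℕ} [NeZero t] (c a : Fin t → ℝ) (D : ℝ) (ha : ∀ s, 0 ≤ a s ∧ a s ≤ D)
    (x y : ℝ) : mx c a x ≤ mx c a y * Real.exp (D * |x - y|) := by
  have h1 : mx c a x = |mon c a (sel c a x) y| * Real.exp (a (sel c a x) * (x - y)) := by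
    unfold mx mon
    rw [abs_mul, abs_mul, Real.abs_exp, Real.abs_exp, mul_assoc, ← Real.exp_add]
    congr 2
    ring
  rw [h1]
  have h2 : |mon c a (sel c a x) y| ≤ mx c a y := (isSel_sel c a y).1 _
  have h3 : a (sel c a x) * (x - y) ≤ D * |x - y| := by
    calc a (sel c a x) * (x - y) ≤ a (sel c a x) * |x - y| :=
          mul_le_mul_of_nonneg_left (le_abs_self _) (ha _).1
      _ ≤ D * |x - y| := mul_le_mul_of_nonneg_right (ha _).2 (abs_nonneg _)
  exact mul_le_mul h2 (Real.exp_le_exp.mpr h3) (Real.exp_pos _).le (mx_nonneg _ _ _)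

theorem sGr : SGr := by
  intro k q t m _ b d al c a D hal hd ha i x y
  have hD : 0 ≤ D := (hd i).1.trans (hd i).2
  set E : ℝ := Real.exp (D * |x - y|) with hE
  have hE1 : 1 ≤ E := Real.one_le_exp (mul_nonneg hD (abs_nonneg _))
  have hE0 : 0 ≤ E := by linarith
  have h1 : Real.exp (d i * x) ≤ Real.exp (d i * y) * E := by
    rw [hE, ← Real.exp_add]
    apply Real.exp_le_exp.mpr
    have h3 : d i * (x - y) ≤ D * |x - y| := by
      calc d i * (x - y) ≤ d i * |x - y| :=
            mul_le_mul_of_nonneg_left (le_abs_self _) (hd i).1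
        _ ≤ D * |x - y| := mul_le_mul_of_nonneg_right (hd i).2 (abs_nonneg _)
    nlinarith
  have h2 : ∏ j, mx (c j) (a j) x ^ al i j ≤ (∏ j, mx (c j) (a j) y ^ al i j) * E ^ m := by
    calc ∏ j, mx (c j) (a j) x ^ al i j
        ≤ ∏ j, (mx (c j) (a j) y * E) ^ al i j := by
          apply Finset.prod_le_prod
          · intro j _
            exact pow_nonneg (mx_nonneg _ _ _) _
          · intro j _
            exact pow_le_pow_left₀ (mx_nonneg _ _ _) (mx_grow _ _ D (ha j) x y) _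
      _ = (∏ j, mx (c j) (a j) y ^ al i j) * E ^ (∑ j, al i j) := by
          simp only [mul_pow]
          rw [Finset.prod_mul_distrib, Finset.prod_pow_eq_pow_sum]
      _ ≤ (∏ j, mx (c j) (a j) y ^ al i j) * E ^ m := by
          apply mul_le_mul_of_nonneg_left (pow_le_pow_right₀ hE1 (hal i))
          exact Finset.prod_nonneg fun j _ => pow_nonneg (mx_nonneg _ _ _) _
  have h4 : Real.exp ((m + 1) * D * |x - y|) = E * E ^ m := by
    rw [hE, ← Real.exp_nat_mul, ← Real.exp_add]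
    congr 1
    ring
  have hp : 0 ≤ ∏ j, mx (c j) (a j) x ^ al i j :=
    Finset.prod_nonneg fun j _ => pow_nonneg (mx_nonneg _ _ _) _
  have hq : 0 ≤ ∏ j, mx (c j) (a j) y ^ al i j :=
    Finset.prod_nonneg fun j _ => pow_nonneg (mx_nonneg _ _ _) _
  unfold MM
  rw [h4]
  calc |b i| * Real.exp (d i * x) * ∏ j, mx (c j) (a j) x ^ al i j
      ≤ |b i| * (Real.exp (d i * y) * E) * ((∏ j, mx (c j) (a j) y ^ al i j) * E ^ m) := by
        apply mul_le_mul (mul_le_mul_of_nonneg_left h1 (abs_nonneg _)) h2 hp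
        positivity
    _ = |b i| * Real.exp (d i * y) * (∏ j, mx (c j) (a j) y ^ al i j) * (E * E ^ m) := by ring

end Pool.Agent.T9h91.TF
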